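import Mathlib

set_option autoImplicit false

namespace Pool.Agent.Results.MP_b5ddc9_co.Full

open Finset

/-- every colouring of `F_2^n` with colours `0, …, r-1` has a 2-dimensional subspace whose nonzero
vectors all get one colour other than the last, or a `d`-dimensional subspace whose nonzero vectors
all get the last colour -/
def Arrows (r d n : ℕ) : Prop :=
  ∀ χ : (Fin n → ZMod 2) → Fin r,
    (∃ i : Fin r, i.val + 1 < r ∧ ∃ W : Submodule (ZMod 2) (Fin n → ZMod 2),
      Module.finrank (ZMod 2) W = 2 ∧ ∀ v ∈ W, v ≠ 0 → χ v = i) ∨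
    ∃ W : Submodule (ZMod 2) (Fin n → ZMod 2),
      Module.finrank (ZMod 2) W = d ∧ ∀ v ∈ W, v ≠ 0 → (χ v).val + 1 = r

def Z {n k : ℕ} (b : Fin k → Fin n → ZMod 2) : Finset (Fin n → ZMod 2) :=
  (univ.image (fun c : Fin k → ZMod 2 => ∑ i, c i • b i)).erase 0

lemma sub {n k : ℕ} (W : Submodule (ZMod 2) (Fin n → ZMod 2)) (h : Module.finrank (ZMod 2) W = k) :
    ∃ b : Fin k → Fin n → ZMod 2, 2 ^ k - 1 ≤ (Z b).card ∧ ∀ v ∈ Z b, v ∈ W ∧ v ≠ 0 := by
  let b := Module.finBasisOfFinrankEq (ZMod 2) W h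
  refine ⟨fun i => b i, ?_, fun v hv => ?_⟩
  · refine le_trans (le_of_eq ?_) pred_card_le_card_erase
    rw [card_image_of_injective]
    · simp
    · intro c c' e
      apply b.equivFun.symm.injective
      apply Subtype.ext
      simpa [Module.Basis.equivFun_symm_apply] using e
  · obtain ⟨h0, h1⟩ := mem_erase.1 hv
    obtain ⟨c, -, rfl⟩ := mem_image.1 h1
    exact ⟨W.sum_mem (fun i _ => W.smul_mem _ (b i).2), h0⟩

lemma cnt {V : Type} [Fintype V] [DecidableEq V] {m : ℕ} (hm : 0 < m) (S : Finset V)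
    (A : Finset (Fin m)) :
    ((univ.filter (fun f : V → Fin m => ∀ v ∈ S, f v ∈ A)).card : ℝ) =
      (m : ℝ) ^ Fintype.card V * ((A.card : ℝ) / m) ^ S.card := by
  have hm' : (m : ℝ) ≠ 0 := by positivity
  have e : univ.filter (fun f : V → Fin m => ∀ v ∈ S, f v ∈ A) =
      Fintype.piFinset (fun v => if v ∈ S then A else univ) := by
    ext f
    simp only [mem_filter, mem_univ, true_and, Fintype.mem_piFinset]
    refine ⟨fun h v => ?_, fun h v hv => ?_⟩
    · split_ifs with q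
      · exact h v q
      · exact mem_univ _
    · have := h v; rwa [if_pos hv] at this
  rw [e, Fintype.card_piFinset]
  push_cast
  rw [prod_congr rfl (g := fun v => (m : ℝ) * if v ∈ S then (A.card : ℝ) / m else 1) (fun v _ => by
    split_ifs
    · field_simp
    · simp), prod_mul_distrib, prod_const, prod_ite_mem, univ_inter, prod_const, card_univ]

lemma greedy {V : Type} [DecidableEq V] (N : V → Finset V) (hs : ∀ x y, y ∈ N x → x ∈ N y)
    (hi : ∀ x, x ∉ N x) (hN : ∀ x, (N x).card ≤ 2) (s : Finset V) :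
    ∃ c : V → Fin 3, ∀ x ∈ s, ∀ y ∈ s, y ∈ N x → c x ≠ c y := by
  induction s using Finset.induction_on with
  | empty => exact ⟨fun _ => 0, by simp⟩
  | insert a s ha ih =>
    obtain ⟨c, hc⟩ := ih
    obtain ⟨j, -, hj⟩ := exists_mem_notMem_of_card_lt_card (s := (N a).image c) (t := univ)
      (lt_of_le_of_lt (card_image_le.trans (hN a)) (by simp))
    have key : ∀ y ∈ s, y ∈ N a → Function.update c a j a ≠ Function.update c a j y := by
      intro y hy h
      rw [Function.update_self, Function.update_of_ne (ne_of_mem_of_not_mem hy ha)]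
      exact fun e => hj (e ▸ mem_image_of_mem c h)
    refine ⟨Function.update c a j, fun x hx y hy h => ?_⟩
    rcases mem_insert.1 hx with rfl | hx1 <;> rcases mem_insert.1 hy with rfl | hy1
    · exact absurd h (hi _)
    · exact key y hy1 h
    · exact (key x hx1 (hs _ _ h)).symm
    · rw [Function.update_of_ne (ne_of_mem_of_not_mem hx1 ha),
        Function.update_of_ne (ne_of_mem_of_not_mem hy1 ha)]
      exact hc x hx1 y hy1 h

lemma pw (k : ℕ) (hk : 20 ≤ k) : 1000 * (k + 1) ^ 2 + 2 ≤ 2 ^ k := by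
  induction k, hk using Nat.le_induction with
  | base => norm_num
  | succ k hk ih => rw [pow_succ 2 k]; nlinarith

lemma good (d n : ℕ) (hd : 525 ≤ d) (hn : 5 * n ≤ 8 * d) :
    ∃ B : (Fin n → ZMod 2) → Prop,
      (∀ x y z, B x → B y → B (x + y) → B z → B (x + z) →
        ({x, y, x + y, z, x + z} : Finset (Fin n → ZMod 2)).card ≠ 5) ∧
      ∀ b : Fin d → Fin n → ZMod 2, 2 ^ d - 1 ≤ (Z b).card → ∃ v ∈ Z b, B v := by
  classical
  obtain ⟨a, ha1, ha2⟩ : ∃ a, 3 * n + 1 ≤ 5 * a ∧ 5 * a ≤ 3 * n + 5 := ⟨(3 * n + 5) / 5, by omega⟩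
  obtain ⟨k, rfl⟩ : ∃ k, d = a + k := ⟨d - a, by omega⟩
  have hm : 0 < 2 ^ a := by positivity
  let o : Fin (2 ^ a) := ⟨0, hm⟩
  set M : ℝ := ((2 ^ a : ℕ) : ℝ) ^ Fintype.card (Fin n → ZMod 2) with hM
  have hM0 : 0 < M := by positivity
  let S : (Fin n → ZMod 2) × (Fin n → ZMod 2) × (Fin n → ZMod 2) → Finset (Fin n → ZMod 2) :=
    fun p => {p.1, p.2.1, p.1 + p.2.1, p.2.2, p.1 + p.2.2}
  let E1 := (univ.filter (fun p => (S p).card = 5)).biUnion (fun p =>
    univ.filter (fun f : (Fin n → ZMod 2) → Fin (2 ^ a) => ∀ v ∈ S p, f v ∈ ({o} : Finset _)))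
  let E2 := (univ.filter (fun b : Fin (a + k) → Fin n → ZMod 2 =>
    2 ^ (a + k) - 1 ≤ (Z b).card)).biUnion (fun b =>
    univ.filter (fun f : (Fin n → ZMod 2) → Fin (2 ^ a) => ∀ v ∈ Z b, f v ∈ ({o}ᶜ : Finset _)))
  have h1 : (E1.card : ℝ) ≤ M / 2 := by
    refine le_trans ((Nat.cast_le (α := ℝ)).2 card_biUnion_le) ?_
    push_cast
    refine le_trans (sum_le_card_nsmul _ _ (M * (1 / 2 ^ a) ^ 5) (fun p hp => ?_)) ?_
    · rw [cnt hm, (mem_filter.1 hp).2]; simp [hM]
    · have c1 : ((univ.filter (fun p => (S p).card = 5)).card : ℝ) ≤ 2 ^ (3 * n) := by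
        have := card_filter_le univ (fun p => (S p).card = 5)
        simp only [card_univ, Fintype.card_prod, Fintype.card_fun, ZMod.card,
          Fintype.card_fin] at this
        rw [show 3 * n = n + (n + n) by ring, pow_add, pow_add]; exact_mod_cast this
      have c2 : (2 : ℝ) ^ (3 * n + 1) ≤ 2 ^ (a * 5) := pow_le_pow_right₀ (by norm_num) (by omega)
      rw [nsmul_eq_mul, div_pow, one_pow, ← pow_mul, ← mul_assoc, mul_one_div,
        div_le_div_iff₀ (by positivity) (by norm_num)]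
      rw [pow_succ] at c2
      nlinarith
  have h2 : (E2.card : ℝ) < M / 2 := by
    refine lt_of_le_of_lt ((Nat.cast_le (α := ℝ)).2 card_biUnion_le) ?_
    push_cast
    have p1 : (1 : ℝ) ≤ 2 ^ a := one_le_pow₀ (by norm_num)
    have p2 : (0 : ℝ) ≤ 1 - 1 / 2 ^ a := by rw [sub_nonneg, div_le_one (by positivity)]; exact p1
    have p3 : (0 : ℝ) < 1 / 2 ^ a := by positivity
    refine lt_of_le_of_lt (sum_le_card_nsmul _ _ (M * (1 - 1 / 2 ^ a) ^ (2 ^ (a + k) - 1))
      (fun b hb => ?_)) ?_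
    · rw [cnt hm, card_compl, card_singleton, Fintype.card_fin, Nat.cast_sub hm]
      have e : (((2 ^ a : ℕ) : ℝ) - ((1 : ℕ) : ℝ)) / ((2 ^ a : ℕ) : ℝ) = 1 - 1 / 2 ^ a := by
        push_cast; field_simp
      rw [e]
      exact mul_le_mul_of_nonneg_left (pow_le_pow_of_le_one p2 (by linarith) (mem_filter.1 hb).2)
        hM0.le
    · have c1 : ((univ.filter (fun b : Fin (a + k) → Fin n → ZMod 2 =>
          2 ^ (a + k) - 1 ≤ (Z b).card)).card : ℝ) ≤ 2 ^ (n * (a + k)) := by
        have := card_filter_le univ (fun b : Fin (a + k) → Fin n → ZMod 2 =>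
          2 ^ (a + k) - 1 ≤ (Z b).card)
        simp only [card_univ, Fintype.card_fun, ZMod.card, Fintype.card_fin] at this
        rw [pow_mul]; exact_mod_cast this
      have c2 : n * (a + k) + 2 ≤ 2 ^ k := by
        refine le_trans ?_ (pw k (by omega))
        have u1 : a + k ≤ 25 * (k + 1) := by omega
        have u2 : n ≤ 40 * (k + 1) := by omega
        have u3 := Nat.mul_le_mul u2 u1
        have u4 : 40 * (k + 1) * (25 * (k + 1)) = 1000 * (k + 1) ^ 2 := by ring
        exact Nat.add_le_add_right (u3.trans u4.le) 2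
      have c3 : 2 ^ a * (n * (a + k) + 1) ≤ 2 ^ (a + k) - 1 := by
        have := Nat.mul_le_mul_left (2 ^ a) c2
        rw [pow_add]; rw [mul_add] at this ⊢; omega
      have c4 : (1 - 1 / 2 ^ a : ℝ) ^ (2 ^ a) < 1 / 2 := by
        have u1 : (1 - 1 / 2 ^ a : ℝ) ≤ Real.exp (-(1 / 2 ^ a)) := Real.one_sub_le_exp_neg _
        have u2 := pow_le_pow_left₀ p2 u1 (2 ^ a)
        rw [← Real.exp_nat_mul] at u2
        have u3 : ((2 ^ a : ℕ) : ℝ) * -(1 / 2 ^ a) = -1 := by push_cast; field_simp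
        rw [u3] at u2
        have := Real.exp_neg_one_lt_d9
        linarith
      have c5 : (1 - 1 / 2 ^ a : ℝ) ^ (2 ^ (a + k) - 1) < (1 / 2) ^ (n * (a + k) + 1) := by
        refine lt_of_le_of_lt (pow_le_pow_of_le_one p2 (by linarith) c3) ?_
        rw [pow_mul]
        exact pow_lt_pow_left₀ c4 (by positivity) (by omega)
      have c6 : (2 : ℝ) ^ (n * (a + k)) * (1 / 2) ^ (n * (a + k) + 1) = 1 / 2 := by
        rw [pow_succ, ← mul_assoc, ← mul_pow]; norm_num
      rw [nsmul_eq_mul]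
      calc _ ≤ 2 ^ (n * (a + k)) * (M * (1 - 1 / 2 ^ a) ^ (2 ^ (a + k) - 1)) :=
            mul_le_mul_of_nonneg_right c1 (by positivity)
        _ < 2 ^ (n * (a + k)) * (M * (1 / 2) ^ (n * (a + k) + 1)) := by gcongr
        _ = M / 2 := by linear_combination M * c6
  have h3 : (E1 ∪ E2).card < (univ : Finset ((Fin n → ZMod 2) → Fin (2 ^ a))).card := by
    have u1 : ((E1 ∪ E2).card : ℝ) ≤ E1.card + E2.card := by exact_mod_cast card_union_le _ _
    have u2 : (((univ : Finset ((Fin n → ZMod 2) → Fin (2 ^ a))).card : ℕ) : ℝ) = M := by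
      rw [card_univ, Fintype.card_fun, Fintype.card_fin, hM]; push_cast; rfl
    have : ((E1 ∪ E2).card : ℝ) < (univ : Finset ((Fin n → ZMod 2) → Fin (2 ^ a))).card := by
      linarith
    exact_mod_cast this
  obtain ⟨f, -, hf⟩ := exists_mem_notMem_of_card_lt_card h3
  rw [mem_union, not_or] at hf
  refine ⟨fun v => f v = o, fun x y z b1 b2 b3 b4 b5 h => hf.1 (mem_biUnion.2
    ⟨(x, y, z), mem_filter.2 ⟨mem_univ _, h⟩, mem_filter.2 ⟨mem_univ _, ?_⟩⟩), fun b hb => ?_⟩
  · simp [S, *]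
  · by_contra hc
    push Not at hc
    exact hf.2 (mem_biUnion.2 ⟨b, mem_filter.2 ⟨mem_univ _, hb⟩, mem_filter.2 ⟨mem_univ _,
      fun v hv => by simpa using hc v hv⟩⟩)

theorem result (r d n : ℕ) (hr : 4 ≤ r) (hd : 525 ≤ d) (hn : 5 * n ≤ 8 * d) : ¬ Arrows r d n := by
  classical
  intro H
  obtain ⟨B, hB1, hB2⟩ := good d n hd hn
  have two : ∀ x : Fin n → ZMod 2, x + x = 0 := fun x =>
    funext (fun i => CharTwo.add_self_eq_zero (x i))
  have can : ∀ x y : Fin n → ZMod 2, x + (x + y) = y := fun x y => by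
    rw [← add_assoc, two, zero_add]
  let N : (Fin n → ZMod 2) → Finset (Fin n → ZMod 2) := fun x =>
    univ.filter (fun y => x ≠ 0 ∧ y ≠ 0 ∧ x ≠ y ∧ B x ∧ B y ∧ B (x + y))
  obtain ⟨c, hc⟩ := greedy N (fun x y h => by
      simp only [N, mem_filter, mem_univ, true_and] at h ⊢
      rw [add_comm y x]; tauto) (fun x => by simp [N]) (fun x => by
      by_contra hc
      obtain ⟨y, hy⟩ : (N x).Nonempty := card_pos.1 (by omega)
      obtain ⟨z, hz, hz'⟩ := exists_mem_notMem_of_card_lt_card (s := {y, x + y}) (t := N x)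
        (lt_of_le_of_lt card_le_two (by omega))
      simp only [N, mem_filter, mem_univ, true_and] at hy hz
      simp only [mem_insert, mem_singleton, not_or] at hz'
      obtain ⟨x0, y0, xy, bx, by', bxy⟩ := hy
      obtain ⟨-, z0, xz, -, bz, bxz⟩ := hz
      refine hB1 x y z bx by' bxy bz bxz ?_
      have n1 : y ≠ x + z := fun e => hz'.2 (by rw [e, can])
      have n2 : y ≠ z := fun e => hz'.1 e.symm
      have n3 : x + y ≠ z := fun e => hz'.2 e.symm
      rw [card_insert_of_notMem (by simp [*]), card_insert_of_notMem (by simp [*]),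
        card_insert_of_notMem (by simp [*]), card_pair (by simp [*])]) univ
  let χ : (Fin n → ZMod 2) → Fin r := fun v =>
    if B v then ⟨(c v).val, by have := (c v).2; omega⟩ else ⟨r - 1, by omega⟩
  rcases H χ with ⟨i, hi, W, hW, h⟩ | ⟨W, hW, h⟩
  · obtain ⟨b, hb, hb'⟩ := sub W hW
    obtain ⟨x, hx, y, hy, hxy⟩ := one_lt_card.1 (show 1 < (Z b).card by omega)
    have key : ∀ v ∈ W, v ≠ 0 → B v ∧ (c v).val = i.val := by
      intro v hv h0
      have := congrArg Fin.val (h v hv h0)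
      by_cases q : B v
      · exact ⟨q, by simpa [χ, q] using this⟩
      · simp only [χ, if_neg q] at this; omega
    have k1 := key x (hb' x hx).1 (hb' x hx).2
    have k2 := key y (hb' y hy).1 (hb' y hy).2
    have k3 := key (x + y) (W.add_mem (hb' x hx).1 (hb' y hy).1)
      (fun e => hxy (by rw [← can x y, e, add_zero]))
    exact hc x (mem_univ _) y (mem_univ _) (mem_filter.2 ⟨mem_univ _, (hb' x hx).2, (hb' y hy).2,
      hxy, k1.1, k2.1, k3.1⟩) (Fin.ext (k1.2.trans k2.2.symm))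
  · obtain ⟨b, hb, hb'⟩ := sub W hW
    obtain ⟨v, hv, hB⟩ := hB2 b hb
    have := h v (hb' v hv).1 (hb' v hv).2
    simp only [χ, if_pos hB] at this
    have := (c v).2
    omega

end Pool.Agent.Results.MP_b5ddc9_co.Full
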